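import Pool.Agent.H95.NV.Targets2

/-!
# Nonvanishing over totally real fields, part A: the vectors and the integral ideals (row BIJ)
-/

set_option autoImplicit false

open NumberField
open scoped nonZeroDivisors

namespace Pool.Agent.H22.NV

open Pool.Agent.H65.CM4 (Pl rv nm dk dg V2 Fo)
open Pool.Agent.H95.NV
open Pool.Agent.H89.NV (PrI idS nuP nu q4 em)
open Pool.Agent.H95.CM (Nr mem_Nr)
open Pool.Agent.H61.NVK (ci cr Lb nf)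

theorem pf_BIJ (hVCL : T_VCL) (hNUP : T_NUP) (hNUM : T_NUM) (hIDC : T_IDC) : T_BIJ := by
  classical
  intro k K _ _ _ _ _ _ _ f D b₀ δ hKD hT A b I hA hI
  obtain ⟨β, h1, h2⟩ := hVCL k K f D b₀ δ hKD hT A b I hA hI
  obtain ⟨-, -, hLt, -, -⟩ := hIDC k K f D b₀ δ hKD A b hA
  let F : {p : ClassGroup (𝓞 k) × V2 k // p.2 ∈ Lb (ci p.1) (A * f) ∧ p.2 ∈ Fo k} →
      {J : (Ideal (𝓞 K))⁰ // cl k K J = (cl k K I)⁻¹} :=
    fun p => ⟨β p.1.1 p.1.2, (h1 p.1.1 p.1.2 p.2.1 p.2.2).1⟩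
  have hF : Function.Bijective F := by
    constructor
    · rintro ⟨p, hp⟩ ⟨q, hq⟩ he
      have he' : β p.1 p.2 = β q.1 q.2 := congrArg Subtype.val he
      obtain ⟨r, -, hr⟩ := h2 (β p.1 p.2) (h1 p.1 p.2 hp.1 hp.2).1
      have e1 := hr p ⟨hp.1, hp.2, rfl⟩
      have e2 := hr q ⟨hq.1, hq.2, he'.symm⟩
      exact Subtype.ext (e1.trans e2.symm)
    · rintro ⟨J, hJ⟩
      obtain ⟨r, hr, -⟩ := h2 J hJ
      exact ⟨⟨r, hr.1, hr.2.1⟩, Subtype.ext hr.2.2⟩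
  refine ⟨Equiv.ofBijective F hF, ?_, ?_⟩
  · rintro ⟨p, hp⟩
    exact (h1 p.1 p.2 hp.1 hp.2).2.1
  · rintro ⟨⟨c, u⟩, hp⟩ m
    have hu0 : u ≠ 0 := hp.2.1
    have hc0 : ci c ≠ ⊥ := nonZeroDivisors.ne_zero (cr c).2
    have hu1 : u.1 ∈ ci c * (A * f) := hp.1.1
    have hβ0 : (β c u : Ideal (𝓞 K)) ≠ ⊥ := nonZeroDivisors.ne_zero (β c u).2
    obtain ⟨x, -, hx⟩ := (hLt (algebraMap k K (u.1 : k) + algebraMap k K (u.2 : k) * w b δ)).mp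
      ⟨u.1, Ideal.mul_le_right hu1, u.2, rfl⟩
    have h3 := (h1 c u hp.1 hp.2).2.2 x hx
    rw [hI] at h3
    change nu f m (ci c) A b (q4 (b ^ 2 + D)) u = dvn k (idS m) (β c u : Ideal (𝓞 K))
    rw [hNUM k K (β c u : Ideal (𝓞 K)) m hβ0]
    unfold nu
    refine Finset.prod_congr rfl fun P _ => ?_
    exact hNUP k K f D b₀ δ hKD A b hA P (ci c) u x (β c u : Ideal (𝓞 K)) hc0 hp.1 hu0 hx h3

end Pool.Agent.H22.NV
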