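import Pool.Agent.H95.NV.Targets4

/-!
# Nonvanishing over totally real fields, part A: the conjugation (row CJX)
-/

set_option autoImplicit false

open NumberField
open scoped nonZeroDivisors

namespace Pool.Agent.H22.NV

open Pool.Agent.H95.NV
open Pool.Agent.H89.NV (CK TrK)

section

variable {k K : Type} [Field k] [NumberField k] [IsTotallyReal k] [Field K] [NumberField K]
  [Algebra k K] {D : 𝓞 k}

/-- the conjugation as a linear map -/
noncomputable def cjL (h : CK D K) : K →ₗ[k] K :=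
  (Algebra.linearMap k K).comp h.re -
    (LinearMap.mulRight k h.s).comp ((Algebra.linearMap k K).comp h.im)

theorem cjL_apply (h : CK D K) (x : K) :
    cjL h x = algebraMap k K (h.re x) - algebraMap k K (h.im x) * h.s := rfl

theorem ck_lin (h : CK D K) (p q : k) :
    h.re (algebraMap k K p + algebraMap k K q * h.s) = p ∧
      h.im (algebraMap k K p + algebraMap k K q * h.s) = q := by
  have e1 : algebraMap k K p = p • (1 : K) := Algebra.algebraMap_eq_smul_one p
  have e2 : algebraMap k K q * h.s = q • h.s := (Algebra.smul_def q h.s).symm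
  rw [e1, e2, map_add, map_smul, map_smul, map_add, map_smul, map_smul, h.re1, h.res, h.im1, h.ims]
  simp

theorem cjL_mk (h : CK D K) (p q : k) :
    cjL h (algebraMap k K p + algebraMap k K q * h.s) =
      algebraMap k K p - algebraMap k K q * h.s := by
  rw [cjL_apply, (ck_lin h p q).1, (ck_lin h p q).2]

theorem cjL_mul (h : CK D K) (x y : K) : cjL h (x * y) = cjL h x * cjL h y := by
  have e : x * y = algebraMap k K (h.re x * h.re y - h.im x * h.im y * (D : k)) +
      algebraMap k K (h.re x * h.im y + h.im x * h.re y) * h.s := by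
    have h1 : x * y = (algebraMap k K (h.re x) + algebraMap k K (h.im x) * h.s) *
        (algebraMap k K (h.re y) + algebraMap k K (h.im y) * h.s) := by
      rw [← h.eq x, ← h.eq y]
    rw [h1]
    simp only [map_sub, map_add, map_mul]
    linear_combination (algebraMap k K (h.im x) * algebraMap k K (h.im y)) * h.sq
  rw [e, cjL_mk, cjL_apply, cjL_apply]
  simp only [map_sub, map_add, map_mul]
  linear_combination (- (algebraMap k K (h.im x) * algebraMap k K (h.im y))) * h.sq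

theorem cjL_cjL (h : CK D K) (x : K) : cjL h (cjL h x) = x := by
  have e : cjL h x = algebraMap k K (h.re x) + algebraMap k K (-(h.im x)) * h.s := by
    rw [cjL_apply, map_neg]; ring
  rw [e, cjL_mk, map_neg]
  conv_rhs => rw [h.eq x]
  ring

theorem cjL_one (h : CK D K) : cjL h 1 = 1 := by
  rw [cjL_apply, h.re1, h.im1]; simp

theorem cjL_s (h : CK D K) : cjL h h.s = -h.s := by
  rw [cjL_apply, h.res, h.ims]; simp

/-- the conjugation -/
noncomputable def cj (h : CK D K) : K ≃ₐ[k] K :=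
  AlgEquiv.ofAlgHom (AlgHom.ofLinearMap (cjL h) (cjL_one h) (cjL_mul h))
    (AlgHom.ofLinearMap (cjL h) (cjL_one h) (cjL_mul h))
    (by ext x; exact cjL_cjL h x) (by ext x; exact cjL_cjL h x)

theorem cj_apply (h : CK D K) (x : K) : cj h x = cjL h x := rfl

theorem s_ne (h : CK D K) : h.s ≠ 0 := by
  intro h0
  have h1 := h.ims
  rw [h0, map_zero] at h1
  exact zero_ne_one h1

theorem norm_eq [Algebra.IsQuadraticExtension k K] (h : CK D K) (x : K) :
    algebraMap k K (Algebra.norm k x) = x * cj h x := by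
  classical
  have hc : Fintype.card (K ≃ₐ[k] K) = 2 := by
    rw [← Nat.card_eq_fintype_card, IsGalois.card_aut_eq_finrank,
      Algebra.IsQuadraticExtension.finrank_eq_two]
  have hne : (1 : K ≃ₐ[k] K) ≠ cj h := by
    intro he
    have h1 : (1 : K ≃ₐ[k] K) h.s = cj h h.s := by rw [← he]
    rw [cj_apply, cjL_s, AlgEquiv.one_apply] at h1
    have h2 : (2 : K) * h.s = 0 := by linear_combination h1
    rcases mul_eq_zero.mp h2 with h3 | h3
    · exact two_ne_zero h3
    · exact s_ne h h3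
  have huniv : (Finset.univ : Finset (K ≃ₐ[k] K)) = {1, cj h} := by
    symm
    rw [Finset.eq_univ_iff_forall]
    have h1 : ({1, cj h} : Finset (K ≃ₐ[k] K)).card = Fintype.card (K ≃ₐ[k] K) := by
      rw [hc, Finset.card_pair hne]
    have h2 := (Finset.card_eq_iff_eq_univ ({1, cj h} : Finset (K ≃ₐ[k] K))).mp h1
    rw [h2]
    exact fun x => Finset.mem_univ x
  rw [Algebra.norm_eq_prod_automorphisms, huniv, Finset.prod_pair hne]
  rfl

theorem absNorm_map_equiv (e : 𝓞 K ≃+* 𝓞 K) (I : Ideal (𝓞 K)) :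
    Ideal.absNorm (I.map (e : 𝓞 K →+* 𝓞 K)) = Ideal.absNorm I := by
  rw [Ideal.absNorm_apply, Ideal.absNorm_apply, Submodule.cardQuot_apply, Submodule.cardQuot_apply]
  exact (Nat.card_congr (Ideal.quotientEquiv I (I.map (e : 𝓞 K →+* 𝓞 K)) e rfl).toEquiv).symm

theorem mul_conj [Algebra.IsQuadraticExtension k K] (h : CK D K) (I : Ideal (𝓞 K)) (hI : I ≠ ⊥) :
    I * I.map (RingOfIntegers.mapRingHom (cj h : K →+* K)) =
      (Ideal.relNorm (𝓞 k) I).map (algebraMap (𝓞 k) (𝓞 K)) := by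
  set e : 𝓞 K ≃+* 𝓞 K := RingOfIntegers.mapRingEquiv ((cj h : K ≃ₐ[k] K) : K ≃+* K) with he
  have hφ : RingOfIntegers.mapRingHom (cj h : K →+* K) = (e : 𝓞 K →+* 𝓞 K) := by
    ext x
    rfl
  rw [hφ]
  have hle : (Ideal.relNorm (𝓞 k) I).map (algebraMap (𝓞 k) (𝓞 K)) ≤
      I * I.map (e : 𝓞 K →+* 𝓞 K) := by
    rw [Ideal.relNorm_apply, Ideal.map_span, Ideal.span_le]
    rintro _ ⟨_, ⟨x, hx, rfl⟩, rfl⟩
    have h1 : algebraMap (𝓞 k) (𝓞 K) (Algebra.intNorm (𝓞 k) (𝓞 K) x) = x * e x := by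
      apply RingOfIntegers.ext
      have h2 : ((algebraMap (𝓞 k) (𝓞 K) (Algebra.intNorm (𝓞 k) (𝓞 K) x) : 𝓞 K) : K) =
          algebraMap k K ((Algebra.intNorm (𝓞 k) (𝓞 K) x : 𝓞 k) : k) := rfl
      have h3 : ((Algebra.intNorm (𝓞 k) (𝓞 K) x : 𝓞 k) : k) = Algebra.norm k (x : K) :=
        Algebra.algebraMap_intNorm (A := 𝓞 k) (K := k) (L := K) (B := 𝓞 K) x
      rw [h2, h3, norm_eq h]
      rfl
    rw [SetLike.mem_coe, h1]
    exact Ideal.mul_mem_mul hx (Ideal.mem_map_of_mem _ hx)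
  obtain ⟨B, hB⟩ := Ideal.dvd_iff_le.mpr hle
  have hnorm : Ideal.absNorm ((Ideal.relNorm (𝓞 k) I).map (algebraMap (𝓞 k) (𝓞 K))) =
      Ideal.absNorm (I * I.map (e : 𝓞 K →+* 𝓞 K)) := by
    rw [Ideal.absNorm_algebraMap, Ideal.absNorm_relNorm, map_mul, absNorm_map_equiv,
      ← IsFractionRing.finrank_eq (𝓞 k) k (𝓞 K) K, Algebra.IsQuadraticExtension.finrank_eq_two,
      pow_two]
  have h0 : Ideal.absNorm (I * I.map (e : 𝓞 K →+* 𝓞 K)) ≠ 0 := by
    rw [map_mul, absNorm_map_equiv]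
    have := Ideal.absNorm_ne_zero_iff_mem_nonZeroDivisors.mpr
      (mem_nonZeroDivisors_iff_ne_zero.mpr hI)
    exact mul_ne_zero this this
  have hB1 : Ideal.absNorm B = 1 := by
    rw [hB, map_mul _ (I * I.map (e : 𝓞 K →+* 𝓞 K)) B] at hnorm
    exact Nat.eq_of_mul_eq_mul_left (Nat.pos_of_ne_zero h0) (by rw [hnorm, mul_one])
  rw [Ideal.absNorm_eq_one_iff] at hB1
  rw [hB, hB1, Ideal.mul_top]

end

theorem pf_CJX (hBRK : T_BRK) : T_CJX := by
  intro k K _ _ _ _ _ _ D h
  obtain ⟨hQ, -, -, -⟩ := (hBRK k K D).1 h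
  refine ⟨cj h, cjL_s h, cjL_cjL h, ?_⟩
  intro ψ hψ I J hJ
  have hI0 : (I : Ideal (𝓞 K)) ≠ ⊥ := nonZeroDivisors.ne_zero I.2
  have h1 := hψ (Ideal.relNorm (𝓞 k) (I : Ideal (𝓞 K))) (I * J) (by
    rw [← mul_conj h (I : Ideal (𝓞 K)) hI0, ← hJ]
    rfl)
  rw [map_mul, map_mul] at h1
  exact eq_inv_of_mul_eq_one_right h1

end Pool.Agent.H22.NV
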