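import Pool.Agent.H95.NV.Targets4

/-!
# Nonvanishing over totally real fields, part A: the pairs of primes for a pair of embeddings
(row EPP)
-/

set_option autoImplicit false

open NumberField
open scoped nonZeroDivisors

namespace Pool.Agent.H22.NV_EPP

open Pool.Agent.H95.NV
open Pool.Agent.H89.NV (PrI)

section

variable {k : Type} [Field k] [NumberField k]

omit [NumberField k] in
/-- avoiding two ideals -/
theorem avoid (I J₁ J₂ : Ideal (𝓞 k)) (h₁ : ¬ I ≤ J₁) (h₂ : ¬ I ≤ J₂) :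
    ∃ x ∈ I, x ∉ J₁ ∧ x ∉ J₂ := by
  by_contra hcon
  push Not at hcon
  obtain ⟨a, ha, ha1⟩ := SetLike.not_le_iff_exists.mp h₁
  obtain ⟨b, hb, hb2⟩ := SetLike.not_le_iff_exists.mp h₂
  have ha2 : a ∈ J₂ := hcon a ha ha1
  have hb1 : b ∈ J₁ := by
    by_contra h
    exact hb2 (hcon b hb h)
  have hab : a + b ∉ J₁ := fun h => ha1 (by
    have := J₁.sub_mem h hb1
    rwa [add_sub_cancel_right] at this)
  have h3 := hcon (a + b) (I.add_mem ha hb) hab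
  exact hb2 (by
    have := J₂.sub_mem h3 ha2
    rwa [add_sub_cancel_left] at this)

omit [NumberField k] in
theorem div_mem (P I : Ideal (𝓞 k)) (hP : P.IsMaximal) (t x : 𝓞 k) (ht : t ∉ P) (hx : x ∈ I)
    (h : t ^ 2 * x ∈ P * I) : x ∈ P * I := by
  have ht2 : t ^ 2 ∉ P := fun h' => ht (hP.isPrime.mem_of_pow_mem 2 h')
  obtain ⟨v, u, hu, e⟩ := hP.exists_inv ht2
  have h1 : x = v * (t ^ 2 * x) + u * x := by linear_combination (-x) * e
  rw [h1]
  exact (P * I).add_mem ((P * I).mul_mem_left v h) (Ideal.mul_mem_mul hu hx)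

omit [NumberField k] in
theorem red (J f h : Ideal (𝓞 k)) (g t x : 𝓞 k) (hg : Ideal.span {g} = f * h) (ht : t ∈ h)
    (hx : x ∈ J * f ^ 2) : ∃ y ∈ J, t ^ 2 * x = g ^ 2 * y := by
  have h1 : t ^ 2 * x ∈ h ^ 2 * (J * f ^ 2) := Ideal.mul_mem_mul (Ideal.pow_mem_pow ht 2) hx
  have h2 : h ^ 2 * (J * f ^ 2) = J * Ideal.span {g ^ 2} := by
    rw [← Ideal.span_singleton_pow, hg]
    ring
  rw [h2, Ideal.mem_mul_span_singleton] at h1
  obtain ⟨y, hy, e⟩ := h1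
  exact ⟨y, hy, by rw [← e]; ring⟩

theorem transfer {F : Type} [Field F] (φ₁ φ₂ : 𝓞 k →+* F) (hs : Function.Surjective φ₂)
    (P₁ P₂ : Ideal (𝓞 k)) (hk1 : ∀ x, x ∈ P₁ ↔ φ₁ x = 0) (hk2 : ∀ x, x ∈ P₂ ↔ φ₂ x = 0)
    (hP₁ : P₁.IsMaximal) (hP₂ : P₂.IsMaximal) (f : Ideal (𝓞 k)) (hf : f ≠ ⊥) (D : 𝓞 k)
    (hD : D ∈ f ^ 2) (hD1 : D ∉ P₁ * f ^ 2)
    (hsq : ∀ a g t : 𝓞 k, g ≠ 0 → t ^ 2 * D = g ^ 2 * a → ∃ n : F, φ₁ a * φ₂ a = n ^ 2)
    (j : 𝓞 k) (hj : j ∈ f) (hj1 : j ^ 2 + D ∈ P₁ * f ^ 2) :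
    ∃ j₂ ∈ f, j₂ ^ 2 + D ∈ P₂ * f ^ 2 := by
  have hlt : ∀ P : Ideal (𝓞 k), P.IsMaximal → ¬ f ≤ P * f := by
    intro P hP hle
    have h1 : P * f = f := le_antisymm Ideal.mul_le_right hle
    have h2 : P * f = ⊤ * f := by rw [h1, Ideal.top_mul]
    have h3 : P = ⊤ := mul_right_cancel₀ hf h2
    exact hP.ne_top h3
  obtain ⟨g, hgf, hg1, hg2⟩ := avoid f (P₁ * f) (P₂ * f) (hlt P₁ hP₁) (hlt P₂ hP₂)
  have hg0 : g ≠ 0 := by
    rintro rfl
    exact hg1 (Ideal.zero_mem _)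
  obtain ⟨h, hh⟩ : f ∣ Ideal.span {g} := Ideal.dvd_span_singleton.mpr hgf
  have hhn : ∀ P : Ideal (𝓞 k), g ∉ P * f → ¬ h ≤ P := by
    intro P hP hle
    apply hP
    have h1 : Ideal.span {g} ≤ P * f := by
      rw [hh, mul_comm f h]
      exact Ideal.mul_mono_left hle
    exact h1 (Ideal.mem_span_singleton_self g)
  obtain ⟨t, hth, ht1, ht2⟩ := avoid h P₁ P₂ (hhn P₁ hg1) (hhn P₂ hg2)
  have hgg : g ^ 2 ∈ f ^ 2 := Ideal.pow_mem_pow hgf 2
  obtain ⟨a, -, ha⟩ := red 1 f h g t D hh hth (by rw [one_mul]; exact hD)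
  obtain ⟨y, hy, hyj⟩ := red P₁ f h g t _ hh hth hj1
  -- the number c
  obtain ⟨c, hc⟩ : ∃ c, t * j = g * c := by
    have h1 : t * j ∈ h * f := Ideal.mul_mem_mul hth hj
    rw [mul_comm h f, ← hh, Ideal.mem_span_singleton'] at h1
    obtain ⟨c, e⟩ := h1
    exact ⟨c, by rw [← e]; ring⟩
  have hca : c ^ 2 + a = y := by
    have h1 : g ^ 2 * (c ^ 2 + a) = g ^ 2 * y := by
      rw [← hyj]
      linear_combination (-(t * j) - g * c) * hc - ha
    exact mul_left_cancel₀ (pow_ne_zero 2 hg0) h1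
  have hca1 : φ₁ c ^ 2 + φ₁ a = 0 := by
    rw [← map_pow, ← map_add, hca]
    exact (hk1 y).mp hy
  have ha1 : φ₁ a ≠ 0 := by
    intro h0
    apply hD1
    apply div_mem P₁ (f ^ 2) hP₁ t D ht1 hD
    rw [ha, mul_comm (g ^ 2) a]
    exact Ideal.mul_mem_mul ((hk1 a).mpr h0) hgg
  obtain ⟨n, hn⟩ := hsq a g t hg0 ha
  have hc0 : φ₁ c ≠ 0 := by
    intro h0
    rw [h0] at hca1
    apply ha1
    simpa using hca1
  obtain ⟨c₂, hc₂⟩ := hs (n / φ₁ c)
  have hca2 : φ₂ c₂ ^ 2 + φ₂ a = 0 := by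
    rw [hc₂, div_pow]
    have h1 : φ₁ a = - φ₁ c ^ 2 := by linear_combination hca1
    rw [h1] at hn
    field_simp
    linear_combination -hn
  obtain ⟨s, u, hu, es⟩ := hP₂.exists_inv ht2
  have hsf : s * g * c₂ ∈ f := by
    rw [mul_assoc, mul_comm g c₂, ← mul_assoc]
    exact f.mul_mem_left _ hgf
  refine ⟨s * g * c₂, hsf, ?_⟩
  apply div_mem P₂ (f ^ 2) hP₂ t _ ht2 ((f ^ 2).add_mem (Ideal.pow_mem_pow hsf 2) hD)
  have h2 : t ^ 2 * ((s * g * c₂) ^ 2 + D) = ((s * t) ^ 2 * c₂ ^ 2 + a) * g ^ 2 := by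
    linear_combination ha
  rw [h2]
  apply Ideal.mul_mem_mul _ hgg
  rw [hk2]
  have h3 : φ₂ (s * t) = 1 := by
    have h4 : φ₂ u = 0 := (hk2 u).mp hu
    have h5 : φ₂ (s * t + u) = 1 := by rw [es, map_one]
    rw [map_add, h4, add_zero] at h5
    exact h5
  rw [map_add, map_mul, map_pow, map_pow, h3, one_pow, one_mul]
  exact hca2

end

section

variable {k M : Type} [Field k] [NumberField k] [Field M] [NumberField M]

/-- in a residue field of prime order every element is an integer -/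
theorem int_of_prime {F : Type} [Field F] {l : ℕ} (hl : l.Prime) (hF : Nat.card F = l) (x : F) :
    ∃ n : ℤ, (n : F) = x := by
  haveI : Fact l.Prime := ⟨hl⟩
  have h1 : x ∈ AddSubgroup.zmultiples (1 : F) :=
    mem_zmultiples_of_prime_card hF one_ne_zero
  rw [AddSubgroup.mem_zmultiples_iff] at h1
  obtain ⟨n, hn⟩ := h1
  exact ⟨n, by rw [← hn]; simp⟩

theorem local_pair (σ τ : k →+* M) (p : Ideal (𝓞 M)) (hp : p.IsPrime) (l : ℕ) (hl : l.Prime)
    (hl2 : l ≠ 2) (hpl : Ideal.absNorm p = l) (α : 𝓞 k)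
    (hα : RingOfIntegers.mapRingHom σ α - RingOfIntegers.mapRingHom τ α ∉ p) :
    ∃ P : PrI k × PrI k, (l : 𝓞 k) ∈ P.1.1 ∧ (l : 𝓞 k) ∈ P.2.1 ∧ P.1 ≠ P.2 ∧
      (2 : 𝓞 k) ∉ P.1.1 ∧ (2 : 𝓞 k) ∉ P.2.1 ∧
      ∀ (f : Ideal (𝓞 k)) (D : 𝓞 k), f ≠ ⊥ → D ∈ f ^ 2 →
        (∃ m : M, σ (D : k) * τ (D : k) = m ^ 2) → ¬ evt f P D := by
  have hlp : (l : 𝓞 M) ∈ p := by rw [← hpl]; exact Ideal.absNorm_mem p
  have hp0 : p ≠ ⊥ := by
    rintro rfl
    rw [Ideal.absNorm_bot] at hpl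
    exact hl.ne_zero hpl.symm
  have hmax : p.IsMaximal := hp.isMaximal hp0
  letI : Field (𝓞 M ⧸ p) := Ideal.Quotient.field p
  have hcard : Nat.card (𝓞 M ⧸ p) = l := by
    rw [← hpl, Ideal.absNorm_apply, Submodule.cardQuot_apply]
  set φ₁ : 𝓞 k →+* 𝓞 M ⧸ p := (Ideal.Quotient.mk p).comp (RingOfIntegers.mapRingHom σ) with hφ₁
  set φ₂ : 𝓞 k →+* 𝓞 M ⧸ p := (Ideal.Quotient.mk p).comp (RingOfIntegers.mapRingHom τ) with hφ₂
  have hsurj : ∀ φ : 𝓞 k →+* 𝓞 M ⧸ p, Function.Surjective φ := by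
    intro φ x
    obtain ⟨n, hn⟩ := int_of_prime hl hcard x
    exact ⟨(n : 𝓞 k), by rw [map_intCast]; exact hn⟩
  have hl0 : ((l : ℕ) : 𝓞 M ⧸ p) = 0 := by
    have h1 : Ideal.Quotient.mk p (l : 𝓞 M) = 0 := Ideal.Quotient.eq_zero_iff_mem.mpr hlp
    rwa [map_natCast] at h1
  have h20 : (2 : 𝓞 M ⧸ p) ≠ 0 := by
    intro h
    have hodd : Odd l := hl.odd_of_ne_two hl2
    obtain ⟨r, hr⟩ := hodd
    rw [hr] at hl0
    push_cast at hl0
    rw [h] at hl0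
    simp at hl0
  have hker : ∀ φ : 𝓞 k →+* 𝓞 M ⧸ p, (RingHom.ker φ).IsMaximal := fun φ =>
    RingHom.ker_isMaximal_of_surjective φ (hsurj φ)
  have hlk : ∀ φ : 𝓞 k →+* 𝓞 M ⧸ p, (l : 𝓞 k) ∈ RingHom.ker φ := by
    intro φ
    rw [RingHom.mem_ker, map_natCast]
    exact hl0
  have hkne : ∀ φ : 𝓞 k →+* 𝓞 M ⧸ p, RingHom.ker φ ≠ ⊥ := by
    intro φ h
    have h1 := hlk φ
    rw [h, Ideal.mem_bot] at h1
    exact hl.ne_zero (Nat.cast_injective (by rw [h1, Nat.cast_zero]))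
  have h2k : ∀ φ : 𝓞 k →+* 𝓞 M ⧸ p, (2 : 𝓞 k) ∉ RingHom.ker φ := by
    intro φ h
    rw [RingHom.mem_ker, map_ofNat] at h
    exact h20 h
  refine ⟨(⟨RingHom.ker φ₁, (hker φ₁).isPrime, hkne φ₁⟩,
    ⟨RingHom.ker φ₂, (hker φ₂).isPrime, hkne φ₂⟩), hlk φ₁, hlk φ₂, ?_, h2k φ₁, h2k φ₂, ?_⟩
  · intro he
    have he' : RingHom.ker φ₁ = RingHom.ker φ₂ := congrArg Subtype.val he
    obtain ⟨n, hn⟩ := int_of_prime hl hcard (φ₁ α)
    have h1 : α - (n : 𝓞 k) ∈ RingHom.ker φ₁ := by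
      rw [RingHom.mem_ker, map_sub, map_intCast, hn, sub_self]
    rw [he', RingHom.mem_ker, map_sub, map_intCast, hn, sub_eq_zero] at h1
    apply hα
    rw [← Ideal.Quotient.eq_zero_iff_mem, map_sub, sub_eq_zero]
    exact h1.symm
  · rintro f D hf hD ⟨m₀, hm₀⟩ ⟨⟨⟨j, hj, hj1⟩, hD1⟩, hns, hD2⟩
    apply hns
    refine ⟨?_, hD2⟩
    refine transfer φ₁ φ₂ (hsurj φ₂) (RingHom.ker φ₁) (RingHom.ker φ₂)
      (fun x => RingHom.mem_ker) (fun x => RingHom.mem_ker) (hker φ₁) (hker φ₂) f hf D hD hD1 ?_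
      j hj hj1
    intro a g t hg0 hat
    have hσg : σ (g : k) ≠ 0 := by
      rw [map_ne_zero]
      exact RingOfIntegers.coe_ne_zero_iff.mpr hg0
    have hτg : τ (g : k) ≠ 0 := by
      rw [map_ne_zero]
      exact RingOfIntegers.coe_ne_zero_iff.mpr hg0
    have hat' : (t : k) ^ 2 * (D : k) = (g : k) ^ 2 * (a : k) := by
      have := congrArg (fun x : 𝓞 k => (x : k)) hat
      simpa using this
    have hσ : σ (t : k) ^ 2 * σ (D : k) = σ (g : k) ^ 2 * σ (a : k) := by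
      have := congrArg σ hat'
      rwa [map_mul, map_mul, map_pow, map_pow] at this
    have hτ : τ (t : k) ^ 2 * τ (D : k) = τ (g : k) ^ 2 * τ (a : k) := by
      have := congrArg τ hat'
      rwa [map_mul, map_mul, map_pow, map_pow] at this
    set n₀ : M := σ (t : k) * τ (t : k) * m₀ / (σ (g : k) * τ (g : k)) with hn₀
    have hn2 : n₀ ^ 2 = σ (a : k) * τ (a : k) := by
      rw [hn₀, div_pow, div_eq_iff (pow_ne_zero 2 (mul_ne_zero hσg hτg))]
      linear_combination (- (σ (t : k) * τ (t : k)) ^ 2) * hm₀ +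
        τ (t : k) ^ 2 * τ (D : k) * hσ + σ (g : k) ^ 2 * σ (a : k) * hτ
    have hint : IsIntegral ℤ n₀ := by
      apply IsIntegral.of_pow (n := 2) (by norm_num)
      rw [hn2]
      exact (map_isIntegral_int σ a.2).mul (map_isIntegral_int τ a.2)
    obtain ⟨N₀, hN₀⟩ : ∃ N₀ : 𝓞 M, (N₀ : M) = n₀ := ⟨⟨n₀, hint⟩, rfl⟩
    refine ⟨Ideal.Quotient.mk p N₀, ?_⟩
    have h6 : RingOfIntegers.mapRingHom σ a * RingOfIntegers.mapRingHom τ a = N₀ ^ 2 := by
      apply RingOfIntegers.coe_injective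
      change algebraMap (𝓞 M) M _ = algebraMap (𝓞 M) M _
      rw [map_mul, map_pow]
      change σ (a : k) * τ (a : k) = (N₀ : M) ^ 2
      rw [hN₀, hn2]
    rw [hφ₁, hφ₂, RingHom.comp_apply, RingHom.comp_apply, ← map_mul, h6, map_pow]

end

theorem pf_EPP (hDG1 : T_DG1) : T_EPP := by
  classical
  intro k _ _ σ τ hστ m
  let σ' : k →ₐ[ℚ] ℂ := σ.toRatAlgHom
  let τ' : k →ₐ[ℚ] ℂ := τ.toRatAlgHom
  haveI : FiniteDimensional ℚ σ'.fieldRange :=
    LinearEquiv.finiteDimensional (AlgEquiv.ofInjectiveField σ').toLinearEquiv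
  haveI : FiniteDimensional ℚ τ'.fieldRange :=
    LinearEquiv.finiteDimensional (AlgEquiv.ofInjectiveField τ').toLinearEquiv
  let M : IntermediateField ℚ ℂ := σ'.fieldRange ⊔ τ'.fieldRange
  haveI : FiniteDimensional ℚ M := IntermediateField.finiteDimensional_sup _ _
  haveI : NumberField M := { to_charZero := inferInstance, to_finiteDimensional := inferInstance }
  have hσM : ∀ x, σ x ∈ M := fun x =>
    (le_sup_left : σ'.fieldRange ≤ σ'.fieldRange ⊔ τ'.fieldRange) ⟨x, rfl⟩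
  have hτM : ∀ x, τ x ∈ M := fun x =>
    (le_sup_right : τ'.fieldRange ≤ σ'.fieldRange ⊔ τ'.fieldRange) ⟨x, rfl⟩
  let σ₁ : k →+* M := σ.codRestrict M hσM
  let τ₁ : k →+* M := τ.codRestrict M hτM
  have hclos : Subfield.closure (Set.range σ ∪ Set.range τ) ≤ M.toSubfield := by
    rw [Subfield.closure_le]
    rintro y (⟨z, rfl⟩ | ⟨z, rfl⟩)
    · exact hσM z
    · exact hτM z
  obtain ⟨α, hα⟩ : ∃ α : 𝓞 k, σ (α : k) ≠ τ (α : k) := by
    by_contra hcon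
    push Not at hcon
    apply hστ
    apply IsLocalization.ringHom_ext (𝓞 k)⁰
    ext x
    exact hcon x
  set β : 𝓞 M := RingOfIntegers.mapRingHom σ₁ α - RingOfIntegers.mapRingHom τ₁ α with hβ
  have hβ0 : β ≠ 0 := by
    rw [hβ, sub_ne_zero]
    intro he
    apply hα
    have h1 : ((RingOfIntegers.mapRingHom σ₁ α : 𝓞 M) : M) = (RingOfIntegers.mapRingHom τ₁ α : 𝓞 M) :=
      by rw [he]
    exact congrArg (fun x : M => (x : ℂ)) h1
  have hN0 : Ideal.absNorm (Ideal.span {β}) ≠ 0 := by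
    rw [Ne, Ideal.absNorm_eq_zero_iff, Ideal.span_singleton_eq_bot]
    exact hβ0
  set S : Set (Ideal (𝓞 M)) := {p | p.IsPrime ∧ (Ideal.absNorm p).Prime} with hS
  have hSinf : S.Infinite := hDG1 M
  have hLinf : (Ideal.absNorm '' S).Infinite := by
    intro hfin
    apply hSinf
    apply Set.Finite.of_finite_fibers _ hfin
    rintro l -
    exact (Ideal.finite_setOfPred_absNorm_eq l).subset (fun p hp => hp.2)
  set N : ℕ := max 2 (Ideal.absNorm (Ideal.span {β})) with hN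
  obtain ⟨T, hT, hTc⟩ := (hLinf.sdiff (Set.finite_Iic N)).exists_subset_card_eq m
  have hex : ∀ l : ℕ, ∃ P : PrI k × PrI k, l ∈ T → (l : 𝓞 k) ∈ P.1.1 ∧ (l : 𝓞 k) ∈ P.2.1 ∧
      P.1 ≠ P.2 ∧ (2 : 𝓞 k) ∉ P.1.1 ∧ (2 : 𝓞 k) ∉ P.2.1 ∧
      ∀ (f : Ideal (𝓞 k)) (D : 𝓞 k), f ≠ ⊥ → D ∈ f ^ 2 →
        (∃ m : M, σ₁ (D : k) * τ₁ (D : k) = m ^ 2) → ¬ evt f P D := by
    intro l
    by_cases hl : l ∈ T
    · obtain ⟨⟨p, ⟨hp, hpp⟩, hpl⟩, hlN⟩ := hT hl
      rw [hpl] at hpp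
      have hlN' : N < l := not_le.mp hlN
      have h2 : l ≠ 2 := by
        have := le_max_left 2 (Ideal.absNorm (Ideal.span {β}))
        omega
      have hβp : β ∉ p := by
        intro hmem
        have h3 : Ideal.absNorm p ∣ Ideal.absNorm (Ideal.span {β}) :=
          Ideal.absNorm_dvd_absNorm_of_le ((Ideal.span_singleton_le_iff_mem p).mpr hmem)
        have h4 := Nat.le_of_dvd (Nat.pos_of_ne_zero hN0) h3
        have h5 := le_max_right 2 (Ideal.absNorm (Ideal.span {β}))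
        rw [hpl] at h4
        omega
      obtain ⟨P, hP⟩ := local_pair σ₁ τ₁ p hp l hpp h2 hpl α hβp
      exact ⟨P, fun _ => hP⟩
    · by_cases hTe : T.Nonempty
      · obtain ⟨l', hl'⟩ := hTe
        obtain ⟨⟨p, ⟨hp, hpp⟩, hpl⟩, hlN⟩ := hT hl'
        rw [hpl] at hpp
        have hlN' : N < l' := not_le.mp hlN
        have h2 : l' ≠ 2 := by
          have := le_max_left 2 (Ideal.absNorm (Ideal.span {β}))
          omega
        have hβp : β ∉ p := by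
          intro hmem
          have h3 : Ideal.absNorm p ∣ Ideal.absNorm (Ideal.span {β}) :=
            Ideal.absNorm_dvd_absNorm_of_le ((Ideal.span_singleton_le_iff_mem p).mpr hmem)
          have h4 := Nat.le_of_dvd (Nat.pos_of_ne_zero hN0) h3
          have h5 := le_max_right 2 (Ideal.absNorm (Ideal.span {β}))
          rw [hpl] at h4
          omega
        obtain ⟨P, hP⟩ := local_pair σ₁ τ₁ p hp l' hpp h2 hpl α hβp
        exact ⟨P, fun h => absurd h hl⟩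
      · -- `T` is empty: any pair will do, take one from the infinite set of primes
        obtain ⟨p, hp, hpp⟩ := hSinf.nonempty
        haveI : Nonempty (PrI k) := by
          have h6 : (Ideal.span {(2 : 𝓞 k)} : Ideal (𝓞 k)) ≠ ⊤ := by
            rw [Ne, Ideal.span_singleton_eq_top]
            intro hu
            have h7 := Ideal.absNorm_eq_one_iff.mpr (Ideal.span_singleton_eq_top.mpr hu)
            rw [Ideal.absNorm_span_singleton] at h7
            have h8 : Algebra.norm ℤ (2 : 𝓞 k) = 2 ^ Module.finrank ℤ (𝓞 k) := by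
              have := Algebra.norm_algebraMap_of_basis (RingOfIntegers.basis k) (2 : ℤ)
              rw [← Module.finrank_eq_card_basis (RingOfIntegers.basis k)] at this
              simpa using this
            rw [h8, Int.natAbs_pow] at h7
            have h9 : Module.finrank ℤ (𝓞 k) ≠ 0 := by
              rw [RingOfIntegers.rank]
              exact Module.finrank_pos.ne'
            exact absurd h7 (Nat.one_lt_pow h9 (by norm_num)).ne'
          obtain ⟨P, hP, hle⟩ := Ideal.exists_le_maximal _ h6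
          refine ⟨⟨P, hP.isPrime, ?_⟩⟩
          rintro rfl
          have := hle (Ideal.mem_span_singleton_self _)
          rw [Ideal.mem_bot] at this
          exact two_ne_zero this
        exact ⟨(Classical.arbitrary _, Classical.arbitrary _), fun h => absurd h hl⟩
  choose P hP using hex
  have hcop : ∀ l ∈ T, ∀ l' ∈ T, l ≠ l' → ∀ R : PrI k, (l : 𝓞 k) ∈ R.1 → (l' : 𝓞 k) ∈ R.1 → False := by
    intro l hl l' hl' hne R h1 h2
    obtain ⟨⟨p, ⟨-, hpp⟩, hpl⟩, -⟩ := hT hl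
    obtain ⟨⟨p', ⟨-, hpp'⟩, hpl'⟩, -⟩ := hT hl'
    rw [hpl] at hpp
    rw [hpl'] at hpp'
    have hc : Nat.Coprime l l' := (Nat.coprime_primes hpp hpp').mpr hne
    have h3 : IsCoprime (l : ℤ) (l' : ℤ) := Nat.isCoprime_iff_coprime.mpr hc
    obtain ⟨u, v, huv⟩ := h3
    have h4 : (1 : 𝓞 k) = (u : 𝓞 k) * (l : 𝓞 k) + (v : 𝓞 k) * (l' : 𝓞 k) := by
      have := congrArg (fun z : ℤ => (z : 𝓞 k)) huv
      push_cast at this
      exact this.symm
    apply R.2.1.ne_top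
    rw [Ideal.eq_top_iff_one, h4]
    exact R.1.add_mem (R.1.mul_mem_left _ h1) (R.1.mul_mem_left _ h2)
  have hinj : Set.InjOn P (T : Set ℕ) := by
    intro l hl l' hl' he
    by_contra hne
    have h1 := (hP l hl).1
    rw [he] at h1
    exact hcop l hl l' hl' hne _ h1 (hP l' hl').1
  refine ⟨T.image P, ?_, ⟨?_, ?_⟩, ?_⟩
  · rw [Finset.card_image_of_injOn hinj, hTc]
  · intro R hR
    rw [Finset.mem_image] at hR
    obtain ⟨l, hl, rfl⟩ := hR
    obtain ⟨-, -, h1, h2, h3, -⟩ := hP l hl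
    exact ⟨h1, h2, h3⟩
  · intro R hR R' hR' hne
    rw [Finset.mem_image] at hR hR'
    obtain ⟨l, hl, rfl⟩ := hR
    obtain ⟨l', hl', rfl⟩ := hR'
    have hll : l ≠ l' := fun h => hne (by rw [h])
    obtain ⟨a1, a2, -⟩ := hP l hl
    obtain ⟨b1, b2, -⟩ := hP l' hl'
    refine ⟨fun h => ?_, fun h => ?_, fun h => ?_, fun h => ?_⟩
    · rw [h] at a1; exact hcop l hl l' hl' hll _ a1 b1
    · rw [h] at a1; exact hcop l hl l' hl' hll _ a1 b2
    · rw [h] at a2; exact hcop l hl l' hl' hll _ a2 b1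
    · rw [h] at a2; exact hcop l hl l' hl' hll _ a2 b2
  · rintro f D hf hD0 hD ⟨m₀, hm₀, hsq⟩ R hR
    rw [Finset.mem_image] at hR
    obtain ⟨l, hl, rfl⟩ := hR
    obtain ⟨-, -, -, -, -, h⟩ := hP l hl
    refine h f D hf hD ⟨⟨m₀, hclos hm₀⟩, ?_⟩
    apply Subtype.ext
    exact hsq

end Pool.Agent.H22.NV_EPP
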