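import Pool.Agent.H95.NV.Targets4

/-!
# Nonvanishing over totally real fields, part A: the norm of an extended ideal (row NRD)
-/

set_option autoImplicit false

open NumberField
open scoped nonZeroDivisors

namespace Pool.Agent.H22.NV

open Pool.Agent.H95.NV

theorem nrd_bound (K F : Type) [Field K] [NumberField K] [Field F] [NumberField F] (i j : K →+* F)
    (hij : Subfield.closure (Set.range i ∪ Set.range j) = ⊤) :
    Module.finrank ℚ F ≤ Module.finrank ℚ K * Module.finrank ℚ K := by
  let i' : K →ₐ[ℚ] F := i.toRatAlgHom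
  let j' : K →ₐ[ℚ] F := j.toRatAlgHom
  have hi : Module.finrank ℚ i'.fieldRange = Module.finrank ℚ K :=
    (LinearEquiv.finrank_eq (AlgEquiv.ofInjectiveField i').toLinearEquiv).symm
  have hj : Module.finrank ℚ j'.fieldRange = Module.finrank ℚ K :=
    (LinearEquiv.finrank_eq (AlgEquiv.ofInjectiveField j').toLinearEquiv).symm
  have htop : i'.fieldRange ⊔ j'.fieldRange = (⊤ : IntermediateField ℚ F) := by
    rw [eq_top_iff]
    intro x _
    have hx : x ∈ Subfield.closure (Set.range i ∪ Set.range j) := by rw [hij]; trivial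
    have hle : Subfield.closure (Set.range i ∪ Set.range j) ≤
        (i'.fieldRange ⊔ j'.fieldRange).toSubfield := by
      rw [Subfield.closure_le]
      rintro y (⟨z, rfl⟩ | ⟨z, rfl⟩)
      · exact (le_sup_left : i'.fieldRange ≤ i'.fieldRange ⊔ j'.fieldRange) ⟨z, rfl⟩
      · exact (le_sup_right : j'.fieldRange ≤ i'.fieldRange ⊔ j'.fieldRange) ⟨z, rfl⟩
    exact hle hx
  have h := IntermediateField.finrank_sup_le i'.fieldRange j'.fieldRange
  rw [htop, hi, hj, IntermediateField.finrank_top'] at h
  exact h

theorem pf_NRD : T_NRD := by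
  intro K F _ _ _ _ i j hij
  letI : Algebra K F := i.toAlgebra
  have hm : Module.finrank (𝓞 K) (𝓞 F) = Module.finrank K F :=
    (IsFractionRing.finrank_eq (𝓞 K) K (𝓞 F) F).symm
  refine ⟨Module.finrank K F, Module.finrank_pos, ?_, ?_⟩
  · have h := nrd_bound K F i j hij
    have ht : Module.finrank ℚ K * Module.finrank K F = Module.finrank ℚ F :=
      Module.finrank_mul_finrank ℚ K F
    rw [← ht] at h
    exact le_of_mul_le_mul_left h Module.finrank_pos
  · intro I
    change Ideal.relNorm (𝓞 K) (I.map (RingOfIntegers.mapRingHom i)) = _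
    have e : RingOfIntegers.mapRingHom i = algebraMap (𝓞 K) (𝓞 F) := rfl
    rw [e, Ideal.relNorm_algebraMap, hm]

end Pool.Agent.H22.NV
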