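import Pool.Agent.H95.NV.Targets2

/-!
# Nonvanishing over totally real fields, part A: divisors of squarefree norm (row NUM)
-/

set_option autoImplicit false

open NumberField
open scoped nonZeroDivisors

namespace Pool.Agent.H22.NV

open Pool.Agent.H95.NV
open Pool.Agent.H89.NV (PrI idS)
open Pool.Agent.H95.CM (Nr mem_Nr)

section

variable {k K : Type} [Field k] [NumberField k] [Field K] [NumberField K] [Algebra k K]

lemma map_relNorm_le (Q : Ideal (𝓞 K)) :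
    (Ideal.relNorm (𝓞 k) Q).map (algebraMap (𝓞 k) (𝓞 K)) ≤ Q :=
  Ideal.map_le_iff_le_comap.mpr (Ideal.relNorm_le_comap (𝓞 k) Q)

lemma isCoprime_of_relNorm {Q₁ Q₂ : Ideal (𝓞 K)}
    (h : IsCoprime (Ideal.relNorm (𝓞 k) Q₁) (Ideal.relNorm (𝓞 k) Q₂)) : IsCoprime Q₁ Q₂ := by
  rw [Ideal.isCoprime_iff_sup_eq] at h ⊢
  rw [eq_top_iff]
  calc (⊤ : Ideal (𝓞 K)) = (⊤ : Ideal (𝓞 k)).map (algebraMap (𝓞 k) (𝓞 K)) := by
        rw [Ideal.map_top]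
    _ = (Ideal.relNorm (𝓞 k) Q₁ ⊔ Ideal.relNorm (𝓞 k) Q₂).map (algebraMap (𝓞 k) (𝓞 K)) := by
        rw [h]
    _ ≤ Q₁ ⊔ Q₂ := by
        rw [Ideal.map_sup]
        exact sup_le_sup (map_relNorm_le Q₁) (map_relNorm_le Q₂)

lemma relNorm_dvd {Q₁ Q₂ : Ideal (𝓞 K)} (h : Q₁ ∣ Q₂) :
    Ideal.relNorm (𝓞 k) Q₁ ∣ Ideal.relNorm (𝓞 k) Q₂ := by
  obtain ⟨c, rfl⟩ := h
  rw [map_mul]
  exact Dvd.intro _ rfl

/-- the decomposition of an ideal whose norm is the product of two coprime ideals -/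
lemma exists_decomp {a b : Ideal (𝓞 k)} (hab : IsCoprime a b) {Q : Ideal (𝓞 K)}
    (hQ : Ideal.relNorm (𝓞 k) Q = a * b) :
    ∃ Q₁ Q₂ : Ideal (𝓞 K), Q = Q₁ * Q₂ ∧ Ideal.relNorm (𝓞 k) Q₁ = a ∧
      Ideal.relNorm (𝓞 k) Q₂ = b := by
  have h1 : Q ∣ a.map (algebraMap (𝓞 k) (𝓞 K)) * b.map (algebraMap (𝓞 k) (𝓞 K)) := by
    rw [← Ideal.map_mul, ← hQ, Ideal.dvd_iff_le]
    exact map_relNorm_le Q
  obtain ⟨Q₁, Q₂, h2, h3, rfl⟩ := exists_dvd_and_dvd_of_dvd_mul h1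
  have e1 : Ideal.relNorm (𝓞 k) Q₁ ∣ a ^ Module.finrank (𝓞 k) (𝓞 K) := by
    have := relNorm_dvd (k := k) h2
    rwa [Ideal.relNorm_algebraMap] at this
  have e2 : Ideal.relNorm (𝓞 k) Q₂ ∣ b ^ Module.finrank (𝓞 k) (𝓞 K) := by
    have := relNorm_dvd (k := k) h3
    rwa [Ideal.relNorm_algebraMap] at this
  rw [map_mul] at hQ
  have c1 : IsCoprime (Ideal.relNorm (𝓞 k) Q₁) b :=
    (hab.pow_left).of_isCoprime_of_dvd_left e1
  have c2 : IsCoprime (Ideal.relNorm (𝓞 k) Q₂) a :=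
    (hab.symm.pow_left).of_isCoprime_of_dvd_left e2
  have d1 : Ideal.relNorm (𝓞 k) Q₁ ∣ a := c1.dvd_of_dvd_mul_right (Dvd.intro _ hQ)
  have d2 : Ideal.relNorm (𝓞 k) Q₂ ∣ b := c2.dvd_of_dvd_mul_left (Dvd.intro_left _ hQ)
  have d3 : a ∣ Ideal.relNorm (𝓞 k) Q₁ := c2.symm.dvd_of_dvd_mul_right (Dvd.intro _ hQ.symm)
  have d4 : b ∣ Ideal.relNorm (𝓞 k) Q₂ := c1.symm.dvd_of_dvd_mul_left (Dvd.intro_left _ hQ.symm)
  exact ⟨Q₁, Q₂, rfl, dvd_antisymm d1 d3, dvd_antisymm d2 d4⟩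

lemma mem_do {α β : Type} [DecidableEq β] (s : Finset α) (f : α → β) (y : β) :
    (y ∈ s.sup (fun a => ({f a} : Finset β))) ↔ ∃ a ∈ s, f a = y := by
  rw [Finset.mem_sup]
  constructor
  · rintro ⟨a, h1, h2⟩
    exact ⟨a, h1, (Finset.mem_singleton.mp h2).symm⟩
  · rintro ⟨a, h1, h2⟩
    exact ⟨a, h1, Finset.mem_singleton.mpr h2.symm⟩

lemma dvn_eq (m : Ideal (𝓞 k)) (J : Ideal (𝓞 K)) [DecidablePred
    (fun Q : (Ideal (𝓞 K))⁰ => (Q : Ideal (𝓞 K)) ∣ J)] :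
    dvn k m J = ((Nr k K m).filter (fun Q : (Ideal (𝓞 K))⁰ => (Q : Ideal (𝓞 K)) ∣ J)).card := by
  classical
  unfold dvn
  symm
  apply Finset.card_nbij (fun Q : (Ideal (𝓞 K))⁰ => (Q : Ideal (𝓞 K)))
  · intro Q h
    rw [Finset.mem_coe, Finset.mem_filter] at h
    rw [Finset.mem_coe, Finset.mem_filter]
    exact ⟨(mem_do (Nr k K m) (fun Q : (Ideal (𝓞 K))⁰ => (Q : Ideal (𝓞 K))) _).mpr ⟨Q, h.1, rfl⟩,
      h.2⟩
  · intro Q _ Q' _ h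
    exact Subtype.ext h
  · intro Q h
    rw [Finset.mem_coe, Finset.mem_filter] at h
    obtain ⟨h1, h3⟩ := h
    obtain ⟨Q', h1', h2⟩ :=
      (mem_do (Nr k K m) (fun Q : (Ideal (𝓞 K))⁰ => (Q : Ideal (𝓞 K))) _).mp h1
    refine ⟨Q', ?_, h2⟩
    rw [Finset.mem_coe, Finset.mem_filter, h2]
    exact ⟨h1', h3⟩

lemma dvn_mul {a b : Ideal (𝓞 k)} (hab : IsCoprime a b) (J : Ideal (𝓞 K)) :
    dvn k (a * b) J = dvn k a J * dvn k b J := by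
  classical
  rw [dvn_eq, dvn_eq, dvn_eq, ← Finset.card_product]
  symm
  apply Finset.card_nbij (fun p : (Ideal (𝓞 K))⁰ × (Ideal (𝓞 K))⁰ => p.1 * p.2)
  · rintro ⟨Q₁, Q₂⟩ h
    rw [Finset.mem_coe, Finset.mem_product, Finset.mem_filter, Finset.mem_filter, mem_Nr,
      mem_Nr] at h
    obtain ⟨⟨h1, h2⟩, h3, h4⟩ := h
    rw [Finset.mem_coe, Finset.mem_filter, mem_Nr]
    refine ⟨?_, ?_⟩
    · change Ideal.relNorm (𝓞 k) ((Q₁ : Ideal (𝓞 K)) * (Q₂ : Ideal (𝓞 K))) = a * b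
      rw [map_mul, h1, h3]
    · change (Q₁ : Ideal (𝓞 K)) * (Q₂ : Ideal (𝓞 K)) ∣ J
      refine IsCoprime.mul_dvd (isCoprime_of_relNorm (k := k) ?_) h2 h4
      rw [h1, h3]
      exact hab
  · rintro ⟨Q₁, Q₂⟩ h ⟨Q₁', Q₂'⟩ h' he
    rw [Finset.mem_coe, Finset.mem_product, Finset.mem_filter, Finset.mem_filter, mem_Nr,
      mem_Nr] at h h'
    obtain ⟨⟨h1, h2⟩, h3, h4⟩ := h
    obtain ⟨⟨h1', h2'⟩, h3', h4'⟩ := h'
    simp only at h1 h2 h3 h4 h1' h2' h3' h4'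
    have he' : (Q₁ : Ideal (𝓞 K)) * (Q₂ : Ideal (𝓞 K)) = (Q₁' : Ideal (𝓞 K)) * (Q₂' : Ideal (𝓞 K)) :=
      congrArg (fun x : (Ideal (𝓞 K))⁰ => (x : Ideal (𝓞 K))) he
    have k1 : IsCoprime (Q₁ : Ideal (𝓞 K)) (Q₂' : Ideal (𝓞 K)) :=
      isCoprime_of_relNorm (k := k) (by rw [h1, h3']; exact hab)
    have k2 : IsCoprime (Q₁' : Ideal (𝓞 K)) (Q₂ : Ideal (𝓞 K)) :=
      isCoprime_of_relNorm (k := k) (by rw [h1', h3]; exact hab)
    have e1 : (Q₁ : Ideal (𝓞 K)) = (Q₁' : Ideal (𝓞 K)) :=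
      dvd_antisymm (k1.dvd_of_dvd_mul_right (Dvd.intro _ he'))
        (k2.dvd_of_dvd_mul_right (Dvd.intro _ he'.symm))
    have e2 : (Q₂ : Ideal (𝓞 K)) = (Q₂' : Ideal (𝓞 K)) :=
      dvd_antisymm (k2.symm.dvd_of_dvd_mul_left (Dvd.intro_left _ he'))
        (k1.symm.dvd_of_dvd_mul_left (Dvd.intro_left _ he'.symm))
    exact Prod.ext (Subtype.ext e1) (Subtype.ext e2)
  · rintro Q h
    rw [Finset.mem_coe, Finset.mem_filter, mem_Nr] at h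
    obtain ⟨h1, h2⟩ := h
    obtain ⟨Q₁, Q₂, e, e1, e2⟩ := exists_decomp hab h1
    have hQ0 : (Q : Ideal (𝓞 K)) ≠ 0 := nonZeroDivisors.ne_zero Q.2
    have hQ1 : Q₁ ≠ 0 := by
      rintro rfl
      rw [zero_mul] at e
      exact hQ0 e
    have hQ2 : Q₂ ≠ 0 := by
      rintro rfl
      rw [mul_zero] at e
      exact hQ0 e
    refine ⟨(⟨Q₁, mem_nonZeroDivisors_iff_ne_zero.mpr hQ1⟩,
      ⟨Q₂, mem_nonZeroDivisors_iff_ne_zero.mpr hQ2⟩), ?_, ?_⟩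
    · rw [Finset.mem_coe, Finset.mem_product, Finset.mem_filter, Finset.mem_filter, mem_Nr, mem_Nr]
      refine ⟨⟨e1, ?_⟩, e2, ?_⟩
      · exact (Dvd.intro _ e.symm).trans h2
      · exact (Dvd.intro_left _ e.symm).trans h2
    · exact Subtype.ext e.symm

lemma dvn_top (J : Ideal (𝓞 K)) : dvn k (1 : Ideal (𝓞 k)) J = 1 := by
  classical
  rw [dvn_eq, Finset.card_eq_one]
  refine ⟨1, ?_⟩
  ext Q
  rw [Finset.mem_filter, mem_Nr, Finset.mem_singleton]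
  constructor
  · rintro ⟨h, _⟩
    have h1 := map_relNorm_le (k := k) (Q : Ideal (𝓞 K))
    rw [h, Ideal.one_eq_top, Ideal.map_top] at h1
    apply Subtype.ext
    rw [top_le_iff.mp h1]
    exact Ideal.one_eq_top.symm
  · rintro rfl
    refine ⟨?_, ?_⟩
    · change Ideal.relNorm (𝓞 k) (1 : Ideal (𝓞 K)) = 1
      rw [map_one]
    · exact one_dvd J

lemma isCoprime_idS (P : PrI k) (m : Finset (PrI k)) (h : P ∉ m) : IsCoprime P.1 (idS m) := by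
  unfold idS
  apply IsCoprime.prod_right
  intro Q hQ
  rw [Ideal.isCoprime_iff_sup_eq]
  have h1 : P.1.IsMaximal := P.2.1.isMaximal P.2.2
  have h2 : Q.1.IsMaximal := Q.2.1.isMaximal Q.2.2
  refine h1.coprime_of_ne h2 ?_
  intro he
  exact h (by rw [Subtype.ext he]; exact hQ)

end

theorem pf_NUM : T_NUM := by
  classical
  intro k K _ _ _ _ _ J m _
  induction m using Finset.induction_on with
  | empty =>
    rw [Finset.prod_empty]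
    exact dvn_top J
  | insert P m hP ih =>
    have e : idS (insert P m) = P.1 * idS m := Finset.prod_insert hP
    rw [Finset.prod_insert hP, e, dvn_mul (isCoprime_idS P m hP), ih]

end Pool.Agent.H22.NV
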